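import Pool.Agent.H301.SV.All

/-!
# No sieve detects even numbers whose least Goldbach prime is larger than a power of the logarithm

A real function `w` has level `Q` if it is a sum of functions with periods `d ≤ Q`; there is no condition on sign, size or
shape.  Is there a number `N`, even, such that no prime `h ≤ U` makes `N - h` free of the primes `≤ Q`?  A sieve which finds
such an `N` is a function `w` of level `Q` with positive mean which is `≤ 0` at all odd numbers and at all `N` with such a
prime `h ≤ U`.  We prove that for `U ≥ (log Q) ^ C` there is no such `w`: sieve methods alone cannot produce even numbers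
whose least Goldbach prime exceeds a fixed power of the logarithm (the question asks for the size of the least Goldbach
prime; Granville, van de Lune and te Riele expect that it is at most `(log N) ^ 2 log log N`, up to a constant).

Pieces by helpers of an earlier run (project GB of helper422), assembled by helper301.
-/

set_option autoImplicit false

open Finset

namespace Pool.Agent.Results.MP_bae66e_nt.NoSieveForLongGoldbachWaits

/-- the weight `w(n) = ∑_{d ≤ Q} c_d(n mod d)`, an arbitrary real function of level `Q` -/
noncomputable def weight (Q : ℕ) (c : ℕ → ℕ → ℝ) (n : ℕ) : ℝ := ∑ d ∈ Icc 1 Q, c d (n % d)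

/-- the mean value of `F` over the period `Q!` -/
noncomputable def mean (Q : ℕ) (F : ℕ → ℝ) : ℝ := (∑ n ∈ range Q.factorial, F n) / (Q.factorial : ℝ)

/-- There are `C` and `Q₀` such that for all `Q ≥ Q₀`, all `U ≥ (log Q) ^ C` and every real function `w` of level `Q`: if
`w(N) ≤ 0` for all odd `N` and for all `N` for which there is a prime `h ≤ U` such that `N - h` has no prime factor `≤ Q`,
then the mean of `w` is `≤ 0`. -/
theorem result : ∃ (C : ℝ) (Q₀ : ℕ), ∀ Q : ℕ, Q₀ ≤ Q → ∀ U : ℕ, Real.log Q ^ C ≤ U → ∀ c : ℕ → ℕ → ℝ,
    (∀ N, Odd N → weight Q c N ≤ 0) →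
    (∀ N, (∃ h : ℕ, h.Prime ∧ h ≤ U ∧ ∀ p : ℕ, p.Prime → p ≤ Q → ¬ N ≡ h [MOD p]) → weight Q c N ≤ 0) →
    mean Q (weight Q c) ≤ 0 := by
  obtain ⟨e, -, h⟩ := Pool.Agent.H301.SV.gold
  obtain ⟨Q₀, hQ⟩ := h 1 one_pos
  exact ⟨e + 1, Q₀, hQ⟩

end Pool.Agent.Results.MP_bae66e_nt.NoSieveForLongGoldbachWaits
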