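import Pool.Agent.H533.QA.Gold3

/-!
# Goldbach representations whose small prime belongs to a prescribed set, and no others

The average number of representations `N = p + q` of an even number `N` with a prime
`p ≤ T log N log log N` is about `T`.  We show, for a positive proportion of the even numbers:

* (windows) for `0 ≤ α < β ≤ Λ` there is no representation with `p ≤ α log N log log N`, there are at least
  `m` with `α log N log log N < p ≤ β log N log log N` and none with
  `β log N log log N < p ≤ Λ log N log log N`; in particular the least prime `g(N)` satisfies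
  `α < g(N) / (log N log log N) ≤ β`;
* (sets) the same with an ARBITRARY set `A` of at least `ρ log X` primes `p ≤ T log X log log X` in
  place of the window;
* (sparse sets) the same for arbitrary sets `A` of at least `ρ log X` primes up to a power of `log X`, if the
  ratios `h/φ(h)` of the differences of the elements of `A` are bounded on average; the places `J`
  where no further representation is allowed are arbitrary.
-/

set_option autoImplicit false

open Finset Filter Topology

namespace Pool.Agent.Results.MP_bae66e_nt.PrescribedSmallPrimes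

open Pool.Agent.H533.QA

/-- `log N log log N` -/
noncomputable def L (N : ℕ) : ℝ := Real.log N * Real.log (Real.log N)

/-- the sum of the ratios `h / φ(h)` over the differences `h = j - i > 0` of the elements of `A` -/
noncomputable def ratios (A : Finset ℕ) : ℝ :=
  ∑ i ∈ A, ∑ j ∈ A.filter (fun j => i < j), (((j - i : ℕ) : ℝ) / Nat.totient (j - i))

open Classical in
/-- **Goldbach representations with prescribed small primes** -/
theorem result :
    -- windows
    (∀ (m : ℕ) (α β Λ : ℝ), 0 ≤ α → α < β → β ≤ Λ →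
      ∃ c : ℝ, 0 < c ∧ ∃ X₀ : ℕ, ∀ X : ℕ, X₀ ≤ X →
        c * X ≤ (((Ico X (2 * X)).filter (fun N => Even N ∧
          m ≤ ((Ioc ⌊α * L N⌋₊ ⌊β * L N⌋₊).filter (fun p => p.Prime ∧ (N - p).Prime)).card ∧
          ∀ p : ℕ, p.Prime → (p : ℝ) ≤ Λ * L N → (N - p).Prime →
            α * L N < p ∧ (p : ℝ) ≤ β * L N)).card : ℝ)) ∧
    -- arbitrary sets of primes on the scale `log X log log X`
    (∀ (m : ℕ) (ρ T : ℝ), 0 < ρ → 0 < T →
      ∃ c : ℝ, 0 < c ∧ ∃ X₀ : ℕ, ∀ X : ℕ, X₀ ≤ X →
      ∀ A : Finset ℕ, (∀ p ∈ A, p.Prime ∧ (p : ℝ) ≤ T * L X) → ρ * Real.log X ≤ A.card →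
        c * X ≤ (((Ico X (2 * X)).filter (fun N => Even N ∧
          m ≤ (A.filter (fun p => (N - p).Prime)).card ∧
          ∀ p : ℕ, p.Prime → (p : ℝ) ≤ T * L X → (N - p).Prime → p ∈ A)).card : ℝ)) ∧
    -- sparse sets of primes
    (∀ (m : ℕ) (ρ Λ C : ℝ), 0 < ρ → 0 < Λ → 0 < C →
      ∃ c : ℝ, 0 < c ∧ ∀ B : ℕ, ∃ X₀ : ℕ, ∀ X : ℕ, X₀ ≤ X →
      ∀ A J : Finset ℕ, A ⊆ J → (∀ p ∈ A, p.Prime) → (∀ p ∈ J, (p : ℝ) ≤ Real.log X ^ B) →
        ρ * Real.log X ≤ A.card → (J.card : ℝ) ≤ Λ * Real.log X →
        ratios A ≤ C * (A.card : ℝ) ^ 2 →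
        c * X ≤ (((Ico X (2 * X)).filter (fun N => Even N ∧
          m ≤ (A.filter (fun p => (N - p).Prime)).card ∧
          ∀ p ∈ J, (N - p).Prime → p ∈ A)).card : ℝ)) :=
  ⟨fun m α β Λ h1 h2 h3 => goldW m α β Λ h1 h2 h3, fun m ρ T h1 h2 => goldS m ρ T h1 h2,
    fun m ρ Λ C h1 h2 h3 => goldE m ρ Λ C h1 h2 h3⟩

end Pool.Agent.Results.MP_bae66e_nt.PrescribedSmallPrimes
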