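import Pool.Agent.H561.C4.B10

/-!
# The least prime in the Goldbach representations of almost all even numbers

Let `g(m)` be the least prime `p` such that `m - p` is a prime. For all `δ > 0` and `A` and all large `X` one has
`g(m) ≤ m ^ (1 / 4 + δ)` for all but at most `X / (log X) ^ A` of the even numbers `m ≤ X`. Moreover, for all these `m` the
number of the primes `p` in `(u, v]` for which `m - p` is a prime is as predicted by Hardy and Littlewood, in ALL the
windows `(u, v]` with `m ^ (1 / 4 + δ) ≤ v ≤ m` and `v - u ≥ v / (log m) ^ W`.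

Definition used (in `Pool.Agent.H560R3.GB`): `sing N = 2 C₂ ∏_{p ∣ N, p > 2} (p - 1) / (p - 2)`, the singular series,
where `C₂ = ∏_{p > 2} (1 - 1 / (p - 1) ^ 2)` is the twin prime constant.

Proof (`Pool.Agent.H561.Q4`, `Pool.Agent.H561.C4`). (1) Primes in progressions to moduli up to a power of `log X` in almost all
intervals of length `X ^ (1 / 4 + δ)`: Parseval's identity on the frequencies `n ^ (-i t)`, `|t| ≤ X ^ (3 / 4 - δ)`,
Heath-Brown's identity with four factors, the mean value theorem for Dirichlet polynomials, van der Corput's tests with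
the second and the third difference for the long smooth factors, and Vinogradov's method (from the library) for the short
factors. (2) The primes are compared with a sieve model, and the difference is convolved with the primes `p ≤ P`,
`P ≥ X ^ (1 / 4 + δ)`, in mean square (circle method with wide major arcs).
-/

set_option autoImplicit false

namespace Pool.Agent.Results.MP_bae66e_nt.SmallPrimeAlmostAll

open Finset
open Pool.Agent.H560R3.GB (sing)

/-- `g(m)`: the least prime `p` such that `m - p` is a prime (`0` if there is none). -/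
noncomputable def g (m : ℕ) : ℕ := sInf {p : ℕ | p.Prime ∧ (m - p).Prime}

open Classical in
/-- The number of the primes `p` with `u < p ≤ v` such that `m - p` is a prime different from `p`. -/
noncomputable def pairs (m : ℕ) (u v : ℝ) : ℕ :=
  ((range (m + 1)).filter (fun p : ℕ => p.Prime ∧ (m - p).Prime ∧ p ≠ m - p ∧ u < p ∧ (p : ℝ) ≤ v)).card

/-- (1) `m` is a sum of two primes and `g(m) ≤ m ^ (1 / 4 + δ)`; (2) for all `0 ≤ u < v` with `m ^ (1 / 4 + δ) ≤ v ≤ m` and
`v - u ≥ v / (log m) ^ W` the number of the primes `p`, `u < p ≤ v`, such that `m - p` is a prime different from `p`, is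
`sing m (v - u) / (log v log m)` up to a relative error of at most `ε`. -/
def Holds (ε δ : ℝ) (W m : ℕ) : Prop :=
  ((g m).Prime ∧ (m - g m).Prime ∧ (g m : ℝ) ≤ (m : ℝ) ^ (1 / 4 + δ)) ∧
  ∀ u v : ℝ, 0 ≤ u → (m : ℝ) ^ (1 / 4 + δ) ≤ v → v ≤ m → v / Real.log m ^ W ≤ v - u →
    |(pairs m u v : ℝ) - sing m * (v - u) / (Real.log v * Real.log m)| ≤
      ε * (sing m * (v - u) / (Real.log v * Real.log m))

open Classical in
/-- the exceptional even numbers up to `X` -/
noncomputable def exceptional (ε δ : ℝ) (W X : ℕ) : Finset ℕ :=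
  (Icc 1 X).filter (fun m : ℕ => 2 ∣ m ∧ ¬ Holds ε δ W m)

lemma holds_of (ε δ : ℝ) (hε : 0 < ε) (hδ : 0 < δ) (W : ℕ) : ∃ N₀ : ℕ, ∀ m : ℕ, N₀ ≤ m →
    Pool.Agent.H561.C4.HoldsA (min ε (1 / 2)) (min δ (1 / 2)) W m → Holds ε δ W m := by
  obtain ⟨η, hη⟩ : ∃ η, η = min ε (1 / 2) := ⟨_, rfl⟩
  have hη0 : 0 < η := by rw [hη]; positivity
  have hη1 : η ≤ 1 / 2 := by rw [hη]; exact min_le_right _ _
  have hηε : η ≤ ε := by rw [hη]; exact min_le_left _ _
  obtain ⟨γ, hγ⟩ : ∃ γ, γ = min δ (1 / 2) := ⟨_, rfl⟩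
  have hγ0 : 0 < γ := by rw [hγ]; positivity
  have hγ1 : γ ≤ 1 / 2 := by rw [hγ]; exact min_le_right _ _
  have hγδ : γ ≤ δ := by rw [hγ]; exact min_le_left _ _
  rw [← hη, ← hγ]
  obtain ⟨m2, h2⟩ := Pool.Agent.H373R2.T7.ev_L' 4
  refine ⟨m2 + 100, fun m hm hA => ?_⟩
  have hL := h2 m (by omega)
  have hm0 : (0 : ℝ) < m := by exact_mod_cast (by omega : 0 < m)
  have hm1 : (1 : ℝ) ≤ m := by exact_mod_cast (by omega : 1 ≤ m)
  have hm1' : (1 : ℝ) < m := by exact_mod_cast (by omega : 1 < m)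
  have hsing := Pool.Agent.W93.GB.one_le_sing m
  have hpd : ∀ u v : ℝ, pairs m u v = Pool.Agent.R460.GH.dist m u v := fun _ _ => rfl
  have hLpos : 0 < Real.log (m : ℝ) := by linarith
  have hL1 : 1 ≤ Real.log (m : ℝ) := by linarith
  have hW1 : (1 : ℝ) ≤ Real.log (m : ℝ) ^ W := one_le_pow₀ hL1
  have hexp : (m : ℝ) ^ (1 / 4 + γ) ≤ (m : ℝ) ^ (1 / 4 + δ) :=
    Real.rpow_le_rpow_of_exponent_le hm1 (by linarith)
  constructor
  · obtain ⟨v, hv⟩ : ∃ v, v = (m : ℝ) ^ (1 / 4 + γ) := ⟨_, rfl⟩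
    have hv1 : 1 < v := by rw [hv]; exact Real.one_lt_rpow hm1' (by positivity)
    have hvm : v ≤ m := by
      rw [hv]
      calc (m : ℝ) ^ (1 / 4 + γ) ≤ (m : ℝ) ^ (1 : ℝ) := Real.rpow_le_rpow_of_exponent_le hm1 (by linarith)
        _ = m := Real.rpow_one _
    have hmain := hA 0 v le_rfl hv.symm.le hvm (by
      rw [sub_zero]
      exact div_le_self (by linarith) hW1)
    rw [sub_zero] at hmain
    have hlv : 0 < Real.log v := Real.log_pos hv1
    obtain ⟨M, hM⟩ : ∃ M, M = sing m * v / (Real.log v * Real.log m) := ⟨_, rfl⟩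
    rw [← hM] at hmain
    have hM0 : 0 < M := by
      rw [hM]
      apply div_pos
      · exact mul_pos (by linarith) (by linarith)
      · exact mul_pos hlv hLpos
    have e1 : 0 < (pairs m 0 v : ℝ) := by
      rw [hpd]
      rw [abs_le] at hmain
      have : η * M ≤ 1 / 2 * M := mul_le_mul_of_nonneg_right hη1 hM0.le
      linarith
    have e2 : 0 < pairs m 0 v := by exact_mod_cast e1
    unfold pairs at e2
    rw [card_pos] at e2
    obtain ⟨p, hp⟩ := e2
    rw [mem_filter, mem_range] at hp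
    obtain ⟨p1, p2, p3, p4, p5, p6⟩ := hp
    have hne : {p : ℕ | p.Prime ∧ (m - p).Prime}.Nonempty := ⟨p, p2, p3⟩
    have hg := Nat.sInf_mem hne
    refine ⟨hg.1, hg.2, ?_⟩
    have hgp : g m ≤ p := Nat.sInf_le ⟨p2, p3⟩
    have : (g m : ℝ) ≤ p := by exact_mod_cast hgp
    rw [hv] at p6
    linarith
  · intro u v hu hv hvm huv
    have hv0 : 1 ≤ v := (Real.one_le_rpow hm1 (by positivity)).trans hv
    rw [hpd]
    refine (hA u v hu (hexp.trans hv) hvm huv).trans ?_
    have e3 : 0 ≤ v - u := (div_nonneg (by linarith) (by positivity)).trans huv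
    apply mul_le_mul_of_nonneg_right hηε
    apply div_nonneg
    · exact mul_nonneg (by linarith) e3
    · exact mul_nonneg (Real.log_nonneg hv0) hLpos.le

/-- **The least prime in the Goldbach representations of almost all even numbers.** For all `ε, δ > 0`, `W` and `A` and all
large `X` all but at most `X / (log X) ^ A` of the even numbers `m ≤ X` have the property `Holds ε δ W m`: `m` is a sum of two
primes, the least prime `g(m)` in the representations is at most `m ^ (1 / 4 + δ)`, and the number of the primes `p` in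
`(u, v]` with `m - p` prime (and `≠ p`) is `sing m (v - u) / (log v log m)`, up to a factor between `1 - ε` and `1 + ε`, for
all `0 ≤ u < v` with `m ^ (1 / 4 + δ) ≤ v ≤ m` and `v - u ≥ v / (log m) ^ W`. -/
theorem result (ε δ : ℝ) (hε : 0 < ε) (hδ : 0 < δ) (W A : ℕ) :
    ∃ X₀ : ℕ, ∀ X : ℕ, X₀ ≤ X → ((exceptional ε δ W X).card : ℝ) ≤ X / Real.log X ^ A := by
  classical
  obtain ⟨N0, hN0⟩ := holds_of ε δ hε hδ W
  obtain ⟨X1, h1⟩ := Pool.Agent.H561.C4.allA (min ε (1 / 2)) (min δ (1 / 2)) (by positivity) (by positivity) W (A + 1)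
  obtain ⟨X2, h2⟩ := Pool.Agent.H373R2.T7.ev_L' 2
  obtain ⟨X3, h3⟩ := Pool.Agent.H373R2.T7.ev_log' A 2
  refine ⟨X1 + X2 + X3 + N0 ^ 2 + 1, fun X hX => ?_⟩
  have a1 := h1 X (by omega)
  have hL := h2 X (by omega)
  have a3 := h3 X (by omega)
  have hX0 : (0 : ℝ) < X := by exact_mod_cast (by omega : 0 < X)
  have hss : √(X : ℝ) * √(X : ℝ) = X := Real.mul_self_sqrt hX0.le
  have hsub : exceptional ε δ W X ⊆ range N0 ∪
      (Icc 1 X).filter (fun m : ℕ => 2 ∣ m ∧ ¬ Pool.Agent.H561.C4.HoldsA (min ε (1 / 2)) (min δ (1 / 2)) W m) := by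
    intro m hm
    unfold exceptional at hm
    rw [mem_filter] at hm
    rw [mem_union, mem_range, mem_filter]
    by_cases hmN : m < N0
    · left; exact hmN
    · right
      exact ⟨hm.1, hm.2.1, fun hA => hm.2.2 (hN0 m (by omega) hA)⟩
  have hc : ((exceptional ε δ W X).card : ℝ) ≤ N0 + X / Real.log X ^ (A + 1) := by
    have e1 := (card_le_card hsub).trans (card_union_le _ _)
    rw [card_range] at e1
    have e2 : ((exceptional ε δ W X).card : ℝ) ≤ (N0 : ℝ) +
        ((Icc 1 X).filter (fun m : ℕ => 2 ∣ m ∧ ¬ Pool.Agent.H561.C4.HoldsA (min ε (1 / 2)) (min δ (1 / 2)) W m)).card := by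
      exact_mod_cast e1
    refine e2.trans ?_
    gcongr
  refine hc.trans ?_
  have hN0s : (N0 : ℝ) ≤ √(X : ℝ) := by
    apply Real.le_sqrt_of_sq_le
    have : N0 ^ 2 ≤ X := by omega
    exact_mod_cast this
  obtain ⟨L, hLd⟩ : ∃ L, L = Real.log (X : ℝ) := ⟨_, rfl⟩
  rw [← hLd] at hL a3 ⊢
  have hL0 : 0 < L := by linarith
  have e1 : √(X : ℝ) ≤ X / L ^ A / 2 := by
    rw [le_div_iff₀ (by norm_num), le_div_iff₀ (by positivity)]
    calc √(X : ℝ) * 2 * L ^ A = √(X : ℝ) * (2 * L ^ A) := by ring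
      _ ≤ √(X : ℝ) * √(X : ℝ) := by gcongr
      _ = X := hss
  have e2 : (X : ℝ) / L ^ (A + 1) ≤ X / L ^ A / 2 := by
    rw [pow_succ, div_div]
    gcongr
  linarith

end Pool.Agent.Results.MP_bae66e_nt.SmallPrimeAlmostAll
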