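import Pool.Agent.H567.PP.Hard4

/-!
# The least prime in Goldbach representations in the residue classes of EVERY modulus: `g(m) ≤ q m ^ (1 / 3 + ρ)`

There is a set `D` of at most `(log x)^c` integers, whose radicals are all larger than any given power of `log x`,
such that the following holds for EVERY modulus `q` and every residue class `a` modulo `q` for which `gcd(a, q)` is not
divisible by a member of `D`. These are

* all classes `a` with `rad (gcd (a, q)) ≤ (log x)^B`, in particular all classes with `gcd (a, q) ≤ (log x)^B`, for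
  EVERY modulus `q`, and ALL classes, for instance the multiples of `q`, for every modulus `q` with
  `rad q ≤ (log x)^B` (such as `q = 10 ^ k`: prescribed last digits);
* all but at most `q / (log x)^B` of the `q` residue classes, for EVERY modulus `q`;
* ALL classes of every modulus which is not divisible by a member of `D`.

(1) If `q ≤ x ^ (2 / 3 - ρ)`, then all but at most `x / (q (log x)^A)` of the even integers `m ≤ x`, `m ≡ a (mod q)`,
satisfy `g(m) ≤ q m ^ (1 / 3 + ρ)`, where `g(m)` is the least prime `p` such that `m - p` is prime; moreover the number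
of the primes `p ≤ y` with `m - p` prime is the one predicted by Hardy and Littlewood, up to the factor `1 ± ε`,
simultaneously for all `y` between `q m ^ (1 / 3 + ρ)` and `m / 2`.

(2) If `q ≤ x ^ (4 / 5 - ρ)`, then all but at most `x / (q (log x)^A)` of these integers satisfy
`g(m) ≤ m / (log m)^W`.

For `q = 1` the bound is `m ^ (1 / 3 + ρ)`, and for `q ≤ x ^ (1 / 6 - 2 ρ)` the small prime is smaller than the square
root of `m`. The starting library has the bound `g(m) ≤ m / (log m)^A` for the classes with `gcd(a, q) ≤ (log x)^T`, or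
for all classes of the moduli which are not divisible by members of a set of large integers (nothing for a given
modulus with large prime powers, like `10 ^ k`, and a class like `0`).

Definition used (in `Pool.Agent.H560R3.GB`): `sing m = 2 C₂ ∏_{p ∣ m, p > 2} (p - 1) / (p - 2)`, the singular series,
where `C₂ = ∏_{p > 2} (1 - 1 / (p - 1) ^ 2)` is the twin prime constant.

Proof: `H567/HW`, `H567/PP` (`PP/Hard3`, `PP/Hard4`); a sketch is in
`Results/MP_dd84fd_nt/EveryModulusEveryClass.lean`.
-/

set_option autoImplicit false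

namespace Pool.Agent.Results.MP_bae66e_nt.SmallPrimeEveryClass

open Finset
open Pool.Agent.H560R3.GB (sing)

/-- The radical: the product of the prime factors. -/
def rad (n : ℕ) : ℕ := ∏ p ∈ n.primeFactors, p

/-- There is a prime `p ≤ q m ^ (1 / 3 + ρ)` such that `m - p` is a prime: `g(m) ≤ q m ^ (1 / 3 + ρ)`. -/
def Bound (ρ : ℝ) (q m : ℕ) : Prop := ∃ p : ℕ, p.Prime ∧ (m - p).Prime ∧ (p : ℝ) ≤ q * (m : ℝ) ^ (1 / 3 + ρ)

/-- There is a prime `p ≤ m / (log m)^W` such that `m - p` is a prime: `g(m) ≤ m / (log m)^W`. -/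
def WeakBound (W m : ℕ) : Prop := ∃ p : ℕ, p.Prime ∧ (m - p).Prime ∧ (p : ℝ) ≤ m / Real.log m ^ W

/-- The number of the primes `p ≤ y` for which `m - p` is a prime. -/
def count (m y : ℕ) : ℕ := ((Ioc 0 y).filter (fun p => p.Prime ∧ (m - p).Prime)).card

/-- For all `y` with `q m ^ (1 / 3 + ρ) ≤ y ≤ m / 2` the number of the primes `p ≤ y` with `m - p` prime is
`sing m * y / (log y log m)` with a relative error of at most `ε`. -/
def Formula (ε ρ : ℝ) (q m : ℕ) : Prop :=
  ∀ y : ℕ, (q : ℝ) * (m : ℝ) ^ (1 / 3 + ρ) ≤ y → 2 * y ≤ m →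
    |(count m y : ℝ) - sing m * ((y : ℝ) / (Real.log y * Real.log m))| ≤
      ε * (sing m * ((y : ℝ) / (Real.log y * Real.log m)))

/-- The even integers `0 < m ≤ x` with `m ≡ a (mod q)` for which `F m` is false. -/
def exceptional (F : ℕ → Prop) (x : ℝ) (q : ℕ) (a : ℤ) : Set ℕ :=
  {m : ℕ | 0 < m ∧ (m : ℝ) ≤ x ∧ 2 ∣ m ∧ (m : ℤ) ≡ a [ZMOD q] ∧ ¬ F m}

/-- The class `a` modulo `q` is excluded by `D`: a member of `D` divides `a` and `q`. -/
def Excluded (D : Finset ℕ) (q : ℕ) (a : ℤ) : Prop := ∃ d ∈ D, d ∣ Int.gcd a q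

open Classical in
/-- For all `ρ, ε > 0`, `A` and `W` there is `c` such that for all `B` and all sufficiently large real `x` there is a
finite set `D` of at most `(log x) ^ c` integers, whose radicals are larger than `(log x) ^ B`, with the following
properties, for EVERY integer `q ≥ 1`. (a) A class `a` modulo `q` with `rad (gcd (a, q)) ≤ (log x)^B` is not excluded
by `D`; (b) at most `q / (log x)^B` of the classes modulo `q` are excluded by `D`; (c) for every integer `a` which is
not excluded by `D` (modulo `q`): if `q ≤ x ^ (2 / 3 - ρ)`, then all but at most `x / (q (log x)^A)` of the even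
integers `0 < m ≤ x`, `m ≡ a (mod q)`, satisfy `g(m) ≤ q m ^ (1 / 3 + ρ)` and `Formula ε ρ q m`; if
`q ≤ x ^ (4 / 5 - ρ)`, then all but at most `x / (q (log x)^A)` of them satisfy `g(m) ≤ m / (log m)^W`. -/
theorem result (ρ ε : ℝ) (hρ : 0 < ρ) (hε : 0 < ε) (A W : ℕ) :
    ∃ c : ℕ, ∀ B : ℕ, ∃ x₀ : ℝ, ∀ x : ℝ, x₀ ≤ x →
    ∃ D : Finset ℕ, (D.card : ℝ) ≤ Real.log x ^ c ∧ (∀ d ∈ D, Real.log x ^ B < (rad d : ℝ)) ∧
    ∀ q : ℕ, 1 ≤ q →
      (∀ a : ℤ, (rad (Int.gcd a q) : ℝ) ≤ Real.log x ^ B → ¬ Excluded D q a) ∧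
      (((range q).filter (fun a : ℕ => Excluded D q a)).card : ℝ) ≤ q / Real.log x ^ B ∧
      ∀ a : ℤ, ¬ Excluded D q a →
        ((q : ℝ) ≤ x ^ (2 / 3 - ρ) → (exceptional (fun m => Bound ρ q m ∧ Formula ε ρ q m) x q a).Finite ∧
          ((exceptional (fun m => Bound ρ q m ∧ Formula ε ρ q m) x q a).ncard : ℝ) ≤ x / (q * Real.log x ^ A)) ∧
        ((q : ℝ) ≤ x ^ (4 / 5 - ρ) → (exceptional (WeakBound W) x q a).Finite ∧
          ((exceptional (WeakBound W) x q a).ncard : ℝ) ≤ x / (q * Real.log x ^ A)) :=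
  Pool.Agent.H567.PP.base_final
    (Pool.Agent.H567.PP.base_and (Pool.Agent.H567.PP.bae_base hρ hε A) (Pool.Agent.H567.PP.lowP_base hρ W A))

end Pool.Agent.Results.MP_bae66e_nt.SmallPrimeEveryClass
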